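import Mathlib
import Pool.Agent.H402R2.SubMean

/-!
# Project SP of helper310, piece SUM: sums over separated points (helper270)

Adapted from `Pool/Agent/N748/HM/SUP.lean`.
-/

set_option autoImplicit false

namespace Run7.h270.SP

open MeasureTheory Set Metric
open scoped ENNReal Real

/-- the square mean over a part of the strip, as a double integral -/
lemma rect_integral (f : ℂ → ℝ≥0∞) (hf : Measurable f) (a b c d : ℝ) :
    ∫⁻ z in {z : ℂ | z.re ∈ Ioo a b ∧ z.im ∈ Ioo c d}, f z =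
      ∫⁻ v in Ioo c d, ∫⁻ x in Ioo a b, f ((x : ℂ) + (v : ℂ) * Complex.I) := by
  have h1 := (Complex.volume_preserving_equiv_real_prod.symm).setLIntegral_comp_preimage_emb
    Complex.measurableEquivRealProd.symm.measurableEmbedding f
    {z : ℂ | z.re ∈ Ioo a b ∧ z.im ∈ Ioo c d}
  have h2 : Complex.measurableEquivRealProd.symm ⁻¹' {z : ℂ | z.re ∈ Ioo a b ∧ z.im ∈ Ioo c d} =
      Ioo a b ×ˢ Ioo c d := by
    ext p
    simp [Complex.measurableEquivRealProd]
  rw [h2] at h1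
  have h3 : ∀ p : ℝ × ℝ, Complex.measurableEquivRealProd.symm p =
      (p.1 : ℂ) + (p.2 : ℂ) * Complex.I := by
    intro p
    apply Complex.ext <;> simp [Complex.measurableEquivRealProd]
  rw [← h1]
  have hm : Measurable fun p : ℝ × ℝ => f ((p.1 : ℂ) + (p.2 : ℂ) * Complex.I) :=
    hf.comp (by fun_prop)
  rw [Measure.volume_eq_prod, ← Measure.prod_restrict]
  have h4 : ∫⁻ p : ℝ × ℝ, f (Complex.measurableEquivRealProd.symm p)
      ∂((volume.restrict (Ioo a b)).prod (volume.restrict (Ioo c d))) =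
      ∫⁻ p : ℝ × ℝ, f ((p.1 : ℂ) + (p.2 : ℂ) * Complex.I)
      ∂((volume.restrict (Ioo a b)).prod (volume.restrict (Ioo c d))) := by
    congr 1
    funext p
    rw [h3]
  rw [h4, lintegral_prod_symm _ hm.aemeasurable]

/-- separated points in an interval -/
lemma card_sep {c l a : ℝ} (hc : 0 < c) (hl : 0 ≤ l) (T : Finset ℝ)
    (h1 : ∀ s ∈ T, a ≤ s ∧ s ≤ a + l) (h2 : ∀ s ∈ T, ∀ s' ∈ T, s ≠ s' → c ≤ |s - s'|) :
    T.card ≤ ⌊l / c⌋₊ + 1 := by
  have hinj : Set.InjOn (fun s : ℝ => ⌊(s - a) / c⌋₊) (T : Set ℝ) := by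
    intro s hs s' hs' he
    by_contra hne
    have h3 := h2 s hs s' hs' hne
    have g1 : 0 ≤ (s - a) / c := div_nonneg (by linarith [(h1 s hs).1]) hc.le
    have g2 : 0 ≤ (s' - a) / c := div_nonneg (by linarith [(h1 s' hs').1]) hc.le
    have e1 := Nat.floor_le g1
    have e2 := Nat.floor_le g2
    have e3 := Nat.lt_floor_add_one ((s - a) / c)
    have e4 := Nat.lt_floor_add_one ((s' - a) / c)
    simp only at he
    rw [he] at e1 e3
    have h4 : |(s - a) / c - (s' - a) / c| < 1 := by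
      rw [abs_lt]
      constructor <;> linarith
    have h5 : (s - a) / c - (s' - a) / c = (s - s') / c := by ring
    rw [h5, abs_div, abs_of_pos hc, div_lt_one hc] at h4
    linarith
  have hmaps : ∀ s ∈ T, ⌊(s - a) / c⌋₊ ∈ Finset.range (⌊l / c⌋₊ + 1) := by
    intro s hs
    rw [Finset.mem_range, Nat.lt_succ_iff]
    apply Nat.floor_le_floor
    exact div_le_div_of_nonneg_right (by linarith [(h1 s hs).2]) hc.le
  have := Finset.card_le_card_of_injOn _ hmaps hinj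
  rwa [Finset.card_range] at this

theorem sum_core : ∀ c : ℝ, 0 < c → ∃ C : ℝ, 0 < C ∧ ∀ Φ : ℂ → ℂ,
    DifferentiableOn ℂ Φ {s : ℂ | 1 / 2 < s.re ∧ s.re < 1} →
    ∀ δ X1 X2 B : ℝ, 0 < δ → δ ≤ 1 / 16 → X1 ≤ X2 → 0 ≤ B →
    (∀ δ' : ℝ, δ / 2 ≤ δ' → δ' ≤ 3 * δ / 2 →
      ∫ t in X1..X2, ‖Φ (1 / 2 + (δ' : ℂ) + (t : ℂ) * Complex.I)‖ ^ 2 ≤ B) →
    ∀ S : Finset ℝ, (∀ s ∈ S, X1 + 1 ≤ s ∧ s + 1 ≤ X2) →
      (∀ s ∈ S, ∀ s' ∈ S, s ≠ s' → c ≤ |s - s'|) →
      ∑ s ∈ S, ‖Φ (1 / 2 + (δ : ℂ) + (s : ℂ) * Complex.I)‖ ^ 2 ≤ C * B / δ := by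
  classical
  intro c hc
  obtain ⟨N, hN⟩ : ∃ N : ℕ, N = ⌊1 / c⌋₊ + 1 := ⟨_, rfl⟩
  have hN0 : (0 : ℝ) < N := by rw [hN]; positivity
  refine ⟨4 / π * N, by positivity, ?_⟩
  intro Φ hΦ δ X1 X2 B hδ hδ2 hX hB hint S hS1 hS2
  set strip : Set ℂ := {s | 1 / 2 < s.re ∧ s.re < 1} with hstrip
  have hso : IsOpen strip := (isOpen_lt continuous_const Complex.continuous_re).inter
    (isOpen_lt Complex.continuous_re continuous_const)
  set Ψ : ℂ → ℂ := strip.piecewise Φ (fun _ => 0) with hΨd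
  have hΨm : Measurable Ψ :=
    ContinuousOn.measurable_piecewise hΦ.continuousOn continuousOn_const hso.measurableSet
  have hΨ : ∀ z ∈ strip, Ψ z = Φ z := fun z hz => Set.piecewise_eq_of_mem _ _ _ hz
  set f : ℂ → ℝ≥0∞ := fun z => ‖Ψ z‖ₑ ^ (2 : ℝ) with hf
  have hfm : Measurable f := hΨm.enorm.pow_const _
  set W : ℝ → ℝ≥0∞ := fun v => ∫⁻ x in Ioo (1 / 2 + δ / 2) (1 / 2 + 3 * δ / 2),
    f ((x : ℂ) + (v : ℂ) * Complex.I) with hW
  have hfm2 : Measurable fun p : ℝ × ℝ => f ((p.1 : ℂ) + (p.2 : ℂ) * Complex.I) :=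
    hfm.comp (by fun_prop)
  have hWm : Measurable W := by
    have : Measurable fun p : ℝ × ℝ => f ((p.2 : ℂ) + (p.1 : ℂ) * Complex.I) :=
      hfm.comp (by fun_prop)
    exact this.lintegral_prod_right'
  -- the values at the points
  have keyA : ∀ u : ℝ, ENNReal.ofReal (‖Φ (1 / 2 + (δ : ℂ) + (u : ℂ) * Complex.I)‖ ^ 2 *
      (π * (δ / 2) ^ 2)) ≤ ∫⁻ v in Ioo (u - δ / 2) (u + δ / 2), W v := by
    intro u
    set s0 : ℂ := 1 / 2 + (δ : ℂ) + (u : ℂ) * Complex.I with hs0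
    have hre : s0.re = 1 / 2 + δ := by simp [hs0]
    have him : s0.im = u := by simp [hs0]
    have hball : ∀ z ∈ ball s0 (δ / 2), 1 / 2 + δ / 2 < z.re ∧ z.re < 1 / 2 + 3 * δ / 2 ∧
        u - δ / 2 < z.im ∧ z.im < u + δ / 2 := by
      intro z hz
      rw [mem_ball, dist_eq_norm] at hz
      have h1 := (abs_lt.1 ((Complex.abs_re_le_norm (z - s0)).trans_lt hz))
      have h2 := (abs_lt.1 ((Complex.abs_im_le_norm (z - s0)).trans_lt hz))
      rw [Complex.sub_re, hre] at h1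
      rw [Complex.sub_im, him] at h2
      refine ⟨by linarith [h1.1], by linarith [h1.2], by linarith [h2.1], by linarith [h2.2]⟩
    have hbs : ball s0 (δ / 2) ⊆ strip := fun z hz => by
      obtain ⟨h1, h2, -, -⟩ := hball z hz
      exact ⟨by linarith, by linarith⟩
    have h1 := Pool.Agent.H402R2.SubMean.rpow_mul_le_lintegral (g := Φ) (w := s0) (ρ := δ / 2)
      (p := 2) (by positivity) two_pos (hΦ.mono hbs)
    have h2 : ENNReal.ofReal (‖Φ s0‖ ^ 2 * (π * (δ / 2) ^ 2)) ≤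
        ENNReal.ofReal (‖Φ s0‖ ^ (2 : ℝ) * (π * (δ / 2) ^ 2)) := by
      rw [Real.rpow_two]
    have h3 : ∫⁻ z in ball s0 (δ / 2), ‖Φ z‖ₑ ^ (2 : ℝ) = ∫⁻ z in ball s0 (δ / 2), f z := by
      refine setLIntegral_congr_fun measurableSet_ball fun z hz => ?_
      simp only [hf]
      rw [hΨ z (hbs hz)]
    have h4 : ∫⁻ z in ball s0 (δ / 2), f z ≤
        ∫⁻ z in {z : ℂ | z.re ∈ Ioo (1 / 2 + δ / 2) (1 / 2 + 3 * δ / 2) ∧
          z.im ∈ Ioo (u - δ / 2) (u + δ / 2)}, f z := by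
      refine lintegral_mono_set fun z hz => ?_
      obtain ⟨g1, g2, g3, g4⟩ := hball z hz
      exact ⟨⟨g1, g2⟩, ⟨g3, g4⟩⟩
    rw [rect_integral f hfm] at h4
    rw [h3] at h1
    exact h2.trans (h1.trans h4)
  -- the mean
  have keyB : ∫⁻ v in Ioo X1 X2, W v ≤ ENNReal.ofReal (B * δ) := by
    have hsw : ∫⁻ v in Ioo X1 X2, W v =
        ∫⁻ x in Ioo (1 / 2 + δ / 2) (1 / 2 + 3 * δ / 2), ∫⁻ v in Ioo X1 X2,
          f ((x : ℂ) + (v : ℂ) * Complex.I) := by
      rw [lintegral_lintegral_swap]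
      exact (hfm2.comp measurable_swap).aemeasurable
    rw [hsw]
    have hle : ∀ x ∈ Ioo (1 / 2 + δ / 2) (1 / 2 + 3 * δ / 2), ∫⁻ v in Ioo X1 X2,
          f ((x : ℂ) + (v : ℂ) * Complex.I) ≤ ENNReal.ofReal B := by
      intro x hx
      have hmem : ∀ v : ℝ, (x : ℂ) + (v : ℂ) * Complex.I ∈ strip := by
        intro v
        have hr : ((x : ℂ) + (v : ℂ) * Complex.I).re = x := by simp
        exact ⟨by rw [hr]; linarith [hx.1], by rw [hr]; linarith [hx.2]⟩
      have hcc : Continuous fun v : ℝ => ‖Φ ((x : ℂ) + (v : ℂ) * Complex.I)‖ ^ 2 := by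
        have : Continuous fun v : ℝ => Φ ((x : ℂ) + (v : ℂ) * Complex.I) :=
          hΦ.continuousOn.comp_continuous (by fun_prop) hmem
        exact this.norm.pow 2
      have e1 : ∫⁻ v in Ioo X1 X2, f ((x : ℂ) + (v : ℂ) * Complex.I) =
          ∫⁻ v in Ioo X1 X2, ENNReal.ofReal (‖Φ ((x : ℂ) + (v : ℂ) * Complex.I)‖ ^ 2) := by
        congr 1
        funext v
        simp only [hf]
        rw [hΨ _ (hmem v), ENNReal.ofReal_pow (norm_nonneg _), ofReal_norm, ENNReal.rpow_two]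
      rw [e1, ← ofReal_integral_eq_lintegral_ofReal
        ((hcc.integrableOn_Icc (a := X1) (b := X2)).mono_set Ioo_subset_Icc_self)
        (Filter.Eventually.of_forall fun v => by positivity)]
      apply ENNReal.ofReal_le_ofReal
      have h5 := hint (x - 1 / 2) (by linarith [hx.1]) (by linarith [hx.2])
      rw [intervalIntegral.integral_of_le hX, integral_Ioc_eq_integral_Ioo] at h5
      refine le_trans (le_of_eq ?_) h5
      congr 1
      funext v
      congr 3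
      push_cast
      ring
    calc ∫⁻ x in Ioo (1 / 2 + δ / 2) (1 / 2 + 3 * δ / 2), ∫⁻ v in Ioo X1 X2,
          f ((x : ℂ) + (v : ℂ) * Complex.I) ≤
          ∫⁻ _x in Ioo (1 / 2 + δ / 2) (1 / 2 + 3 * δ / 2), ENNReal.ofReal B :=
          setLIntegral_mono' measurableSet_Ioo hle
      _ = ENNReal.ofReal (B * δ) := by
          rw [setLIntegral_const, Real.volume_Ioo, ENNReal.ofReal_mul hB]
          congr 2
          ring
  -- the overlap
  have hover : ∑ s ∈ S, ∫⁻ v in Ioo (s - δ / 2) (s + δ / 2), W v ≤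
      (N : ℝ≥0∞) * ∫⁻ v in Ioo X1 X2, W v := by
    have e1 : ∀ s ∈ S, ∫⁻ v in Ioo (s - δ / 2) (s + δ / 2), W v =
        ∫⁻ v, (Ioo (s - δ / 2) (s + δ / 2)).indicator W v := by
      intro s _
      rw [lintegral_indicator measurableSet_Ioo]
    rw [Finset.sum_congr rfl e1, ← lintegral_finsetSum _ fun s _ =>
      hWm.indicator measurableSet_Ioo]
    have e2 : (N : ℝ≥0∞) * ∫⁻ v in Ioo X1 X2, W v =
        ∫⁻ v, (Ioo X1 X2).indicator (fun v => (N : ℝ≥0∞) * W v) v := by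
      rw [lintegral_indicator measurableSet_Ioo, lintegral_const_mul _ hWm]
    rw [e2]
    refine lintegral_mono fun v => ?_
    obtain ⟨T, hT⟩ : ∃ T, T = S.filter fun s => v ∈ Ioo (s - δ / 2) (s + δ / 2) := ⟨_, rfl⟩
    have e3 : ∑ s ∈ S, (Ioo (s - δ / 2) (s + δ / 2)).indicator W v = (T.card : ℝ≥0∞) * W v := by
      rw [hT, ← nsmul_eq_mul, ← Finset.sum_const, Finset.sum_filter]
      refine Finset.sum_congr rfl fun s _ => ?_
      rw [Set.indicator_apply]
    rw [e3]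
    by_cases hv : v ∈ Ioo X1 X2
    · rw [Set.indicator_of_mem hv]
      have hcard : T.card ≤ N := by
        have h1 : T.card ≤ ⌊δ / c⌋₊ + 1 := by
          refine card_sep (a := v - δ / 2) hc hδ.le T ?_ ?_
          · intro s hs
            rw [hT, Finset.mem_filter] at hs
            exact ⟨by linarith [hs.2.2], by linarith [hs.2.1]⟩
          · intro s hs s' hs' hne
            rw [hT, Finset.mem_filter] at hs hs'
            exact hS2 s hs.1 s' hs'.1 hne
        have h2 : ⌊δ / c⌋₊ ≤ ⌊1 / c⌋₊ :=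
          Nat.floor_le_floor (div_le_div_of_nonneg_right (by linarith) hc.le)
        rw [hN]
        omega
      exact mul_le_mul' (by exact_mod_cast hcard) le_rfl
    · rw [Set.indicator_of_notMem hv]
      have hempty : T = ∅ := by
        rw [hT, Finset.filter_eq_empty_iff]
        intro s hs h1
        apply hv
        have := hS1 s hs
        exact ⟨by linarith [h1.1], by linarith [h1.2]⟩
      rw [hempty, Finset.card_empty, Nat.cast_zero, zero_mul]
  -- conclusion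
  have h8 : ∑ s ∈ S, ENNReal.ofReal (‖Φ (1 / 2 + (δ : ℂ) + (s : ℂ) * Complex.I)‖ ^ 2 *
      (π * (δ / 2) ^ 2)) ≤ ENNReal.ofReal (N * (B * δ)) := by
    refine (Finset.sum_le_sum fun s _ => keyA s).trans (hover.trans ?_)
    rw [ENNReal.ofReal_mul hN0.le, ENNReal.ofReal_natCast]
    exact mul_le_mul' le_rfl keyB
  rw [← ENNReal.ofReal_sum_of_nonneg fun s _ => by positivity, ← Finset.sum_mul,
    ENNReal.ofReal_le_ofReal_iff (by positivity)] at h8
  have h9 : 0 < π * (δ / 2) ^ 2 := by positivity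
  rw [← le_div_iff₀ h9] at h8
  refine h8.trans (le_of_eq ?_)
  field_simp
  ring

end Run7.h270.SP
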