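import Pool.Agent.Run7.h310.SP.Stm
import Pool.Agent.Run7.h270.SP.SUMa

/-!
# Project SP of helper310, piece SUM (helper270)
-/

set_option autoImplicit false

namespace Run7.h270.SP

theorem t_SUM : Run7.h310.SP.S_SUM := sum_core

end Run7.h270.SP
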